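import Pool.Agent.D0H24.LY.Stm

set_option autoImplicit false

/-!
A sum of `N` exponentials with positive bases which alternates weakly at `N + 1` places vanishes.
-/

namespace Pool.Agent.D0H24.LY

theorem t_ALT : S_ALT := by
  intro N
  induction N with
  | zero =>
    intro lam c _ m _ _ k
    simp
  | succ N ih =>
    intro lam c hlam m hm halt
    have hL : 0 < lam (Fin.last N) := hlam _
    obtain ⟨f, hf⟩ : ∃ f : ℕ → ℝ, f = fun k => ∑ i, c i * lam i ^ k := ⟨_, rfl⟩
    obtain ⟨g, hg⟩ : ∃ g : ℕ → ℝ, g = fun k => f k / lam (Fin.last N) ^ k := ⟨_, rfl⟩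
    have hfg : ∀ k, f k = g k * lam (Fin.last N) ^ k := by
      intro k
      rw [hg]
      field_simp
    have halt' : ∀ t ≤ N + 1, 0 ≤ (-1) ^ t * g (m t) := by
      intro t ht
      have h1 : 0 ≤ (-1) ^ t * f (m t) := by
        rw [hf]
        exact halt t ht
      rw [hfg, ← mul_assoc] at h1
      exact nonneg_of_mul_nonneg_left h1 (pow_pos hL _)
    -- the differences
    have hΔ : ∀ k, g (k + 1) - g k = ∑ i : Fin N, (c i.castSucc * (lam i.castSucc / lam (Fin.last N) - 1)) *
        (lam i.castSucc / lam (Fin.last N)) ^ k := by
      intro k
      rw [hg]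
      simp only
      rw [hf]
      simp only
      rw [Fin.sum_univ_castSucc, Fin.sum_univ_castSucc]
      rw [add_div, add_div, mul_div_assoc (c (Fin.last N)), mul_div_assoc (c (Fin.last N)),
        div_self (pow_pos hL _).ne', div_self (pow_pos hL _).ne', add_sub_add_right_eq_sub,
        Finset.sum_div, Finset.sum_div, ← Finset.sum_sub_distrib]
      refine Finset.sum_congr rfl fun i _ => ?_
      rw [div_pow]
      field_simp
      ring
    have hex : ∀ t, ∃ k, m t ≤ k ∧ k < m (t + 1) ∧ (t ≤ N → 0 ≤ (-1) ^ t * (-(g (k + 1) - g k))) := by
      intro t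
      by_cases ht : t ≤ N
      · by_contra hcon
        push Not at hcon
        have h1 : ∀ k, m t ≤ k → k < m (t + 1) → 0 < (-1) ^ t * (g (k + 1) - g k) := by
          intro k h1 h2
          have h3 := (hcon k h1 h2).2
          linarith
        have h2 : ∀ k, m t + 1 ≤ k → k ≤ m (t + 1) → (-1) ^ t * g (m t) < (-1) ^ t * g k := by
          intro k hk
          induction k, hk using Nat.le_induction with
          | base =>
            intro h3
            have := h1 (m t) le_rfl (by omega)
            linarith
          | succ k hk ihk =>
            intro h3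
            have h4 := ihk (by omega)
            have h5 := h1 k (by omega) (by omega)
            linarith
        have h3 := h2 (m (t + 1)) (hm (Nat.lt_succ_self t)) le_rfl
        have h4 := halt' t (by omega)
        have h5 := halt' (t + 1) (by omega)
        rw [pow_succ] at h5
        linarith
      · exact ⟨m t, le_rfl, hm (Nat.lt_succ_self t), fun h => absurd h ht⟩
    choose m' h1 h2 h3 using hex
    have hm' : StrictMono m' := strictMono_nat_of_lt_succ fun t => (h2 t).trans_le (h1 (t + 1))
    have hz := ih (fun i => lam i.castSucc / lam (Fin.last N))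
      (fun i => -(c i.castSucc * (lam i.castSucc / lam (Fin.last N) - 1)))
      (fun i => div_pos (hlam _) hL) m' hm' (by
        intro t ht
        have h4 := h3 t ht
        rw [hΔ] at h4
        simp only [neg_mul, Finset.sum_neg_distrib]
        exact h4)
    have hconst : ∀ k, g k = g 0 := by
      intro k
      induction k with
      | zero => rfl
      | succ k ihk =>
        rw [← ihk]
        have h4 := hz k
        simp only [neg_mul, Finset.sum_neg_distrib] at h4
        rw [← hΔ] at h4
        linarith
    have h4 := halt' 0 (by omega)
    have h5 := halt' 1 (by omega)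
    rw [hconst] at h4 h5
    have h6 : g 0 = 0 := by
      rw [pow_zero, one_mul] at h4
      rw [pow_one] at h5
      linarith
    intro k
    have h7 : f k = 0 := by rw [hfg, hconst, h6, zero_mul]
    rw [hf] at h7
    exact h7

end Pool.Agent.D0H24.LY
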