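import Pool.Agent.D0H24.LY.Use

set_option autoImplicit false

/-!
The asymptotic behaviour of a sum of exponentials with positive bases.
-/

open Filter Topology

namespace Pool.Agent.D0H24.LY

theorem asym {ι : Type} (c μ : ι → ℝ) (N : ℕ) : ∀ S : Finset ι, S.card ≤ N → (∀ i ∈ S, 0 < μ i) →
    (∀ k : ℕ, ∑ i ∈ S, c i * μ i ^ k = 0) ∨ ∃ m C : ℝ, 0 < m ∧ C ≠ 0 ∧
      Tendsto (fun k : ℕ => (∑ i ∈ S, c i * μ i ^ k) / m ^ k) atTop (𝓝 C) := by
  classical
  induction N with
  | zero =>
    intro S hS _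
    left
    intro k
    rw [Finset.card_eq_zero.1 (Nat.le_zero.1 hS), Finset.sum_empty]
  | succ N ih =>
    intro S hS hμ
    rcases S.eq_empty_or_nonempty with h | hne
    · left
      intro k
      rw [h, Finset.sum_empty]
    obtain ⟨i0, hi0, hmax⟩ := S.exists_max_image μ hne
    have hM : 0 < μ i0 := hμ i0 hi0
    have hsplit : ∀ k : ℕ, ∑ i ∈ S, c i * μ i ^ k = (∑ i ∈ S.filter (fun i => μ i = μ i0), c i) * μ i0 ^ k +
        ∑ i ∈ S.filter (fun i => ¬ μ i = μ i0), c i * μ i ^ k := by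
      intro k
      rw [← Finset.sum_filter_add_sum_filter_not S (fun i => μ i = μ i0) (fun i => c i * μ i ^ k),
        Finset.sum_mul]
      congr 1
      refine Finset.sum_congr rfl fun i hi => ?_
      rw [(Finset.mem_filter.1 hi).2]
    by_cases hC : ∑ i ∈ S.filter (fun i => μ i = μ i0), c i = 0
    · have hlt : (S.filter (fun i => ¬ μ i = μ i0)).card < S.card := by
        apply Finset.card_lt_card
        refine Finset.filter_ssubset.2 ⟨i0, hi0, by simp⟩
      have h2 := ih (S.filter (fun i => ¬ μ i = μ i0)) (by omega)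
        (fun i hi => hμ i (Finset.mem_filter.1 hi).1)
      have h3 : ∀ k : ℕ, ∑ i ∈ S, c i * μ i ^ k =
          ∑ i ∈ S.filter (fun i => ¬ μ i = μ i0), c i * μ i ^ k := by
        intro k
        rw [hsplit, hC, zero_mul, zero_add]
      simp only [h3]
      exact h2
    · right
      refine ⟨μ i0, _, hM, hC, ?_⟩
      have h4 : ∀ k : ℕ, (∑ i ∈ S, c i * μ i ^ k) / μ i0 ^ k =
          (∑ i ∈ S.filter (fun i => μ i = μ i0), c i) +
          ∑ i ∈ S.filter (fun i => ¬ μ i = μ i0), c i * (μ i / μ i0) ^ k := by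
        intro k
        rw [hsplit, add_div, mul_div_cancel_right₀ _ (pow_pos hM k).ne', Finset.sum_div]
        congr 1
        refine Finset.sum_congr rfl fun i _ => ?_
        rw [div_pow, mul_div_assoc]
      simp only [h4]
      have h5 : Tendsto (fun k : ℕ => ∑ i ∈ S.filter (fun i => ¬ μ i = μ i0), c i * (μ i / μ i0) ^ k)
          atTop (𝓝 (∑ i ∈ S.filter (fun i => ¬ μ i = μ i0), c i * 0)) := by
        refine tendsto_finsetSum _ fun i hi => ?_
        obtain ⟨h6, h7⟩ := Finset.mem_filter.1 hi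
        refine (tendsto_pow_atTop_nhds_zero_of_lt_one (div_nonneg (hμ i h6).le hM.le) ?_).const_mul _
        rw [div_lt_one hM]
        exact lt_of_le_of_ne (hmax i h6) h7
      simp only [mul_zero, Finset.sum_const_zero] at h5
      simpa using h5.const_add (∑ i ∈ S.filter (fun i => μ i = μ i0), c i)

/-- the asymptotic law along a residue class mod 2 -/
theorem asym_sq {N : ℕ} (lam c : Fin N → ℝ) (f : ℕ → ℝ) (hf : ∀ m, f m = ∑ i, c i * lam i ^ m)
    (r : ℕ) (hr : 1 ≤ r) : (∀ k, f (2 * k + r) = 0) ∨ ∃ μ C : ℝ, 0 < μ ∧ C ≠ 0 ∧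
      Tendsto (fun k : ℕ => f (2 * k + r) / μ ^ k) atTop (𝓝 C) := by
  have key : ∀ k, f (2 * k + r) = ∑ i, (c i * lam i ^ r) *
      (if lam i = 0 then 1 else lam i ^ 2) ^ k := by
    intro k
    rw [hf]
    refine Finset.sum_congr rfl fun i _ => ?_
    by_cases hi : lam i = 0
    · rw [if_pos hi, hi, zero_pow (by omega), zero_pow (by omega)]
      ring
    · rw [if_neg hi, ← pow_mul, pow_add]
      ring
  simp only [key]
  refine asym (fun i => c i * lam i ^ r) (fun i => if lam i = 0 then 1 else lam i ^ 2) _ Finset.univ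
    le_rfl (fun i _ => ?_)
  by_cases hi : lam i = 0
  · simp [hi]
  · simp only [if_neg hi]
    positivity

end Pool.Agent.D0H24.LY
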