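import Pool.Agent.D0H24.LY.Alt

set_option autoImplicit false

/-!
Consequences of `ALT` for sums of real exponentials along a residue class mod 2.
-/

open Filter

namespace Pool.Agent.D0H24.LY

/-- weak alternation at `N + 1` places -/
theorem alt_sq {N : ℕ} (lam c : Fin N → ℝ) (f : ℕ → ℝ) (hf : ∀ m, f m = ∑ i, c i * lam i ^ m)
    (r : ℕ) (hr : 1 ≤ r) (m : ℕ → ℕ) (hm : StrictMono m)
    (h : ∀ t ≤ N, 0 ≤ (-1) ^ t * f (2 * m t + r)) (k : ℕ) : f (2 * k + r) = 0 := by
  have key : ∀ k, f (2 * k + r) = ∑ i, (c i * lam i ^ r) *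
      (if lam i = 0 then 1 else lam i ^ 2) ^ k := by
    intro k
    rw [hf]
    refine Finset.sum_congr rfl fun i _ => ?_
    by_cases hi : lam i = 0
    · rw [if_pos hi, hi, zero_pow (by omega), zero_pow (by omega)]
      ring
    · rw [if_neg hi, ← pow_mul, pow_add]
      ring
  rw [key]
  refine t_ALT N _ _ (fun i => ?_) m hm (fun t ht => ?_) k
  · by_cases hi : lam i = 0
    · rw [if_pos hi]
      exact one_pos
    · rw [if_neg hi]
      positivity
  · rw [← key]
    exact h t ht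

theorem alt_neg {N : ℕ} (lam c : Fin N → ℝ) (f : ℕ → ℝ) (hf : ∀ m, f m = ∑ i, c i * lam i ^ m)
    (r : ℕ) (hr : 1 ≤ r) (m : ℕ → ℕ) (hm : StrictMono m)
    (h : ∀ t ≤ N, (-1) ^ t * f (2 * m t + r) ≤ 0) (k : ℕ) : f (2 * k + r) = 0 := by
  have h1 := alt_sq lam (fun i => -c i) (fun m => -f m) (fun m => by
    rw [hf]
    simp) r hr m hm (fun t ht => by
    have := h t ht
    rw [mul_neg]
    linarith) k
  simpa using h1

/-- the trichotomy -/
theorem tricho {N : ℕ} (lam c : Fin N → ℝ) (f : ℕ → ℝ) (hf : ∀ m, f m = ∑ i, c i * lam i ^ m)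
    (r : ℕ) (hr : 1 ≤ r) : (∀ k, f (2 * k + r) = 0) ∨ (∃ k₀, ∀ k ≥ k₀, 0 < f (2 * k + r)) ∨
      ∃ k₀, ∀ k ≥ k₀, f (2 * k + r) < 0 := by
  by_cases h1 : ∃ᶠ k in atTop, 0 ≤ f (2 * k + r)
  · by_cases h2 : ∃ᶠ k in atTop, f (2 * k + r) ≤ 0
    · left
      obtain ⟨m, hm, h⟩ := extraction_forall_of_frequently
        (P := fun t k => 0 ≤ (-1 : ℝ) ^ t * f (2 * k + r)) (by
          intro t
          rcases Nat.even_or_odd t with ht | ht
          · refine h1.mono fun k hk => ?_
            rw [ht.neg_one_pow, one_mul]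
            exact hk
          · refine h2.mono fun k hk => ?_
            rw [ht.neg_one_pow]
            linarith)
      exact alt_sq lam c f hf r hr m hm (fun t _ => h t)
    · right
      left
      rw [not_frequently] at h2
      obtain ⟨k₀, hk⟩ := eventually_atTop.1 h2
      exact ⟨k₀, fun k hk' => not_le.1 (hk k hk')⟩
  · right
    right
    rw [not_frequently] at h1
    obtain ⟨k₀, hk⟩ := eventually_atTop.1 h1
    exact ⟨k₀, fun k hk' => not_le.1 (hk k hk')⟩

/-- the number of zeros -/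
theorem zeros {N : ℕ} (lam c : Fin N → ℝ) (f : ℕ → ℝ) (hf : ∀ m, f m = ∑ i, c i * lam i ^ m)
    (r : ℕ) (hr : 1 ≤ r) : (∀ k, f (2 * k + r) = 0) ∨
      ∀ S : Finset ℕ, (∀ k ∈ S, f (2 * k + r) = 0) → S.card < N := by
  by_contra hcon
  push Not at hcon
  obtain ⟨⟨k0, hk0⟩, S, hS, hcard⟩ := hcon
  have hk0S : k0 ∉ S := fun h => hk0 (hS k0 h)
  obtain ⟨S', hS', hc'⟩ := Finset.exists_subset_card_eq hcard
  have hk0S' : k0 ∉ S' := fun h => hk0S (hS' h)
  have hc : (insert k0 S').card = N + 1 := by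
    rw [Finset.card_insert_of_notMem hk0S', hc']
  let e := (insert k0 S').orderEmbOfFin hc
  let m : ℕ → ℕ := fun t => if h : t < N + 1 then e ⟨t, h⟩ else e ⟨N, by omega⟩ + t
  have hm : StrictMono m := by
    apply strictMono_nat_of_lt_succ
    intro t
    by_cases h1 : t + 1 < N + 1
    · have h2 : t < N + 1 := by omega
      have e1 : m t = e ⟨t, h2⟩ := dif_pos h2
      have e2 : m (t + 1) = e ⟨t + 1, h1⟩ := dif_pos h1
      rw [e1, e2]
      exact e.strictMono (by
        rw [Fin.lt_def]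
        exact Nat.lt_succ_self t)
    · have e2 : m (t + 1) = e ⟨N, by omega⟩ + (t + 1) := dif_neg h1
      rw [e2]
      by_cases h2 : t < N + 1
      · have h3 : t = N := by omega
        subst h3
        have e1 : m t = e ⟨t, h2⟩ := dif_pos h2
        rw [e1]
        omega
      · have e1 : m t = e ⟨N, by omega⟩ + t := dif_neg h2
        rw [e1]
        omega
  obtain ⟨p, hp⟩ : ∃ p : Fin (N + 1), e p = k0 := by
    have h1 : k0 ∈ Set.range e := by
      rw [Finset.range_orderEmbOfFin]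
      exact Finset.mem_coe.2 (Finset.mem_insert_self _ _)
    exact h1
  have hval : ∀ t ≤ N, t ≠ p.val → f (2 * m t + r) = 0 := by
    intro t ht htp
    have h1 : t < N + 1 := by omega
    have e1 : m t = e ⟨t, h1⟩ := dif_pos h1
    have h2 : e ⟨t, h1⟩ ∈ insert k0 S' := Finset.orderEmbOfFin_mem _ _ _
    rcases Finset.mem_insert.1 h2 with h3 | h3
    · exfalso
      rw [← hp] at h3
      have h4 := e.injective h3
      exact htp (congrArg Fin.val h4)
    · rw [e1]
      exact hS _ (hS' h3)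
  have hpv : m p.val = k0 := by
    have e1 : m p.val = e ⟨p.val, p.isLt⟩ := dif_pos p.isLt
    rw [e1]
    exact hp
  rcases le_total 0 ((-1 : ℝ) ^ p.val * f (2 * k0 + r)) with h | h
  · refine hk0 (alt_sq lam c f hf r hr m hm (fun t ht => ?_) k0)
    by_cases htp : t = p.val
    · rw [htp, hpv]
      exact h
    · rw [hval t ht htp, mul_zero]
  · refine hk0 (alt_neg lam c f hf r hr m hm (fun t ht => ?_) k0)
    by_cases htp : t = p.val
    · rw [htp, hpv]
      exact h
    · rw [hval t ht htp, mul_zero]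

end Pool.Agent.D0H24.LY
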