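import Pool.Agent.D0H24.BG.Caps
import Pool.Agent.D0H24.BG.Rank
import Pool.Agent.D0H24.LY.Use

set_option autoImplicit false

/-!
Random ends: the share of the pairs with the right sign from some number of layers on.
-/

open Filter

namespace Pool.Agent.D0H24.LY

open Pool.Agent.D0H24.BG Classical in
theorem share_even {K : Type} [Fintype K] [Nonempty K] {J : Type} [Fintype J] (w : J → ℝ) (hw : ∀ i, 0 ≤ w i)
    (hw1 : ∑ i, w i = 1) (v : J → ℕ → K → ℝ) (hpos : ∀ i a, 0 < ∑ k, v i a k * v i a k)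
    (htri : ∀ i j, (∀ᶠ a in atTop, 0 < ∑ k, v i a k * v j a k) ∨
      ∀ᶠ a in atTop, ¬ 0 < ∑ k, v i a k * v j a k) :
    1 / (2 * (Fintype.card K : ℝ)) ≤
      ∑ i, ∑ j, if (∀ᶠ a in atTop, 0 < ∑ k, v i a k * v j a k) then w i * w j else 0 := by
  have h1 : ∀ᶠ a in atTop, ∀ i j, (0 < ∑ k, v i a k * v j a k ↔
      ∀ᶠ b in atTop, 0 < ∑ k, v i b k * v j b k) := by
    rw [eventually_all]
    intro i
    rw [eventually_all]
    intro j
    rcases htri i j with h | h
    · exact h.mono fun a ha => ⟨fun _ => h, fun _ => ha⟩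
    · refine h.mono fun a ha => ⟨fun h' => absurd h' ha, fun h' => ?_⟩
      obtain ⟨b, hb1, hb2⟩ := (h.and h').exists
      exact absurd hb2 hb1
  obtain ⟨a, ha⟩ := h1.exists
  have h2 := share_gram w hw hw1 (fun i => v i a) (fun i => hpos i a) (fun _ => 0) 0 le_rfl
  have h3 : (1 / (2 * (Fintype.card K : ℝ))) = ((∑ i, w i * ((∑ k, v i a k * (fun _ : K => (0:ℝ)) k) /
      √((∑ k, v i a k * v i a k) * ∑ k, (fun _ : K => (0:ℝ)) k * (fun _ : K => (0:ℝ)) k))) ^ 2 +
        1 / (Fintype.card K : ℝ) - 0 - 0 ^ 2) / 2 := by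
    simp only [mul_zero, Finset.sum_const_zero, zero_div]
    ring
  rw [h3]
  refine h2.trans (le_of_eq ?_)
  refine Finset.sum_congr rfl fun i _ => Finset.sum_congr rfl fun j _ => ?_
  simp only [zero_mul]
  exact if_congr (ha i j) rfl rfl

end Pool.Agent.D0H24.LY
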