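import Pool.Agent.D0H24.LY.Stm2
import Pool.Agent.D0H24.BG.Draw

set_option autoImplicit false
set_option linter.unusedSectionVars false

/-!
A half stacked on a layer drawn in a strip is drawn in the half plane.
-/

namespace Pool.Agent.D0H24.LY

open Set Pool.Agent.H207R2.BL Pool.Agent.D0H24.BG

theorem t_STK : S_STK := by
  intro V W n H L hH hL
  classical
  obtain ⟨f, γ, ⟨hfi, hfe, hfd⟩, hf, hγ, hf0, hfx⟩ := hH
  obtain ⟨f', γ', ⟨hfi', hfe', hfd'⟩, hf', hγ', hf0', hf1', hfx0', hfx'⟩ := hL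
  -- the function of the axis
  obtain ⟨ψ, hψc, hψm, hψ⟩ : ∃ ψ : ℝ → ℝ, Continuous ψ ∧ StrictMono ψ ∧
      ∀ i : Fin n, ψ (f (Sum.inr i)).1 = (f' (Sum.inl (Sum.inr i))).1 := by
    obtain ⟨ψ, h1, h2, h3⟩ := interp n
      (fun i => if h : i < n then (f (Sum.inr ⟨i, h⟩)).1 else 0)
      (fun i => if h : i < n then (f' (Sum.inl (Sum.inr ⟨i, h⟩))).1 else 0)
      (fun i j hij hj => by
        rw [dif_pos (hij.trans hj), dif_pos hj]
        exact hfx _ _ hij)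
      (fun i j hij hj => by
        rw [dif_pos (hij.trans hj), dif_pos hj]
        exact hfx' _ _ hij)
    refine ⟨ψ, h1, h2, fun i => ?_⟩
    have h4 := h3 i.val i.isLt
    rw [dif_pos i.isLt, dif_pos i.isLt] at h4
    exact h4
  let d : ℝ → ℝ := fun x => ∏ i : Fin n, |x - (f' (Sum.inl (Sum.inr i))).1|
  have hdc : Continuous d := by
    refine continuous_finsetProd _ (fun i _ => ?_)
    fun_prop
  have hd0 : ∀ x, 0 ≤ d x := fun x => Finset.prod_nonneg (fun i _ => abs_nonneg _)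
  have hdz : ∀ x, d x = 0 → ∃ i : Fin n, x = (f' (Sum.inl (Sum.inr i))).1 := by
    intro x h
    obtain ⟨i, _, hi⟩ := Finset.prod_eq_zero_iff.1 h
    exact ⟨i, sub_eq_zero.1 (abs_eq_zero.1 hi)⟩
  have hdi : ∀ i : Fin n, d (f' (Sum.inl (Sum.inr i))).1 = 0 := by
    intro i
    exact Finset.prod_eq_zero (Finset.mem_univ i) (by simp)
  let U : ℝ × ℝ → ℝ × ℝ := fun z => (ψ z.1, 1 + z.2 + d (ψ z.1))
  have hUc : Continuous U :=
    (hψc.comp continuous_fst).prodMk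
      ((continuous_const.add continuous_snd).add (hdc.comp (hψc.comp continuous_fst)))
  have hUi : Function.Injective U := by
    intro z z' h
    have h1 : (U z).1 = (U z').1 := congrArg Prod.fst h
    have h2 : (U z).2 = (U z').2 := congrArg Prod.snd h
    change ψ z.1 = ψ z'.1 at h1
    change 1 + z.2 + d (ψ z.1) = 1 + z'.2 + d (ψ z'.1) at h2
    rw [h1] at h2
    exact Prod.ext (hψm.injective h1) (by linarith)
  have star : ∀ z z' : ℝ × ℝ, 0 ≤ z.2 → z'.2 ≤ 1 → U z = z' →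
      ∃ i : Fin n, z = f (Sum.inr i) ∧ z' = f' (Sum.inl (Sum.inr i)) := by
    intro z z' hz hz' h
    have h1 : (U z).1 = z'.1 := congrArg Prod.fst h
    have h2 : (U z).2 = z'.2 := congrArg Prod.snd h
    change ψ z.1 = z'.1 at h1
    change 1 + z.2 + d (ψ z.1) = z'.2 at h2
    have h3 := hd0 (ψ z.1)
    obtain ⟨i, hi⟩ := hdz (ψ z.1) (by linarith)
    refine ⟨i, ?_, ?_⟩
    · refine Prod.ext ?_ ?_
      · apply hψm.injective
        rw [hi, hψ i]
      · rw [hf0 i]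
        linarith
    · refine Prod.ext ?_ ?_
      · rw [← h1, hi]
      · rw [hf1' i]
        linarith
  have hUL : ∀ i : Fin n, U (f (Sum.inr i)) = f' (Sum.inl (Sum.inr i)) := by
    intro i
    refine Prod.ext ?_ ?_
    · exact hψ i
    · change 1 + (f (Sum.inr i)).2 + d (ψ (f (Sum.inr i)).1) = (f' (Sum.inl (Sum.inr i))).2
      rw [hψ i, hdi i, hf0 i, hf1' i]
      norm_num
  let e1 : V ⊕ Fin n → (V ⊕ (W ⊕ Fin n)) ⊕ Fin n := fun x => Sum.inl (Sum.map id Sum.inr x)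
  let e2 : (W ⊕ Fin n) ⊕ Fin n → (V ⊕ (W ⊕ Fin n)) ⊕ Fin n := Sum.map Sum.inr id
  have hcov : ∀ u : (V ⊕ (W ⊕ Fin n)) ⊕ Fin n, (∃ a, e1 a = u) ∨ ∃ a, e2 a = u := by
    rintro ((v | w) | i)
    · exact Or.inl ⟨Sum.inl v, rfl⟩
    · exact Or.inr ⟨Sum.inl w, rfl⟩
    · exact Or.inr ⟨Sum.inr i, rfl⟩
  let g : (V ⊕ (W ⊕ Fin n)) ⊕ Fin n → ℝ × ℝ :=
    Sum.elim (Sum.elim (fun v => U (f (Sum.inl v))) (fun w => f' (Sum.inl w)))
      (fun i => f' (Sum.inr i))
  have g1 : ∀ a, g (e1 a) = U (f a) := by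
    rintro (a | a)
    · rfl
    · exact (hUL a).symm
  have g2 : ∀ a, g (e2 a) = f' a := by
    rintro (a | a) <;> rfl
  have mix : ∀ (a : V ⊕ Fin n) (b : (W ⊕ Fin n) ⊕ Fin n), U (f a) = f' b → e1 a = e2 b := by
    intro a b h
    obtain ⟨i, h1, h2⟩ := star _ _ (hf a) (hf' b).2 h
    rw [hfi h1, hfi' h2]
    rfl
  have hgi : Function.Injective g := by
    intro u v h
    rcases hcov u with ⟨a, rfl⟩ | ⟨a, rfl⟩ <;> rcases hcov v with ⟨b, rfl⟩ | ⟨b, rfl⟩
    · rw [g1, g1] at h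
      rw [hfi (hUi h)]
    · rw [g1, g2] at h
      exact mix a b h
    · rw [g2, g1] at h
      exact (mix b a h.symm).symm
    · rw [g2, g2] at h
      rw [hfi' h]
  have hΓ : ∀ u v, ∃ c : ℝ → ℝ × ℝ, (stack H L).Adj u v →
      (∃ a b, H.Adj a b ∧ e1 a = u ∧ e1 b = v ∧ ∀ t, c t = U (γ a b t)) ∨
      (∃ a b, L.Adj a b ∧ e2 a = u ∧ e2 b = v ∧ ∀ t, c t = γ' a b t) := by
    intro u v
    by_cases h : (stack H L).Adj u v
    · rcases h with h | h
      · rw [SimpleGraph.map_adj'] at h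
        obtain ⟨_, a, b, hab, ha, hb⟩ := h
        exact ⟨fun t => U (γ a b t), fun _ => Or.inl ⟨a, b, hab, ha, hb, fun _ => rfl⟩⟩
      · rw [SimpleGraph.map_adj'] at h
        obtain ⟨_, a, b, hab, ha, hb⟩ := h
        exact ⟨fun t => γ' a b t, fun _ => Or.inr ⟨a, b, hab, ha, hb, fun _ => rfl⟩⟩
    · exact ⟨fun _ => 0, fun h' => absurd h' h⟩
  choose Γ hΓ using hΓ
  refine ⟨g, Γ, ⟨hgi, ?_, ?_⟩, ?_, ?_, ?_, ?_⟩
  · intro u v huv
    rcases hΓ u v huv with ⟨a, b, hab, rfl, rfl, hc⟩ | ⟨a, b, hab, rfl, rfl, hc⟩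
    · obtain ⟨h1, h2, h3, h4, h5⟩ := hfe a b hab
      have hfun : Γ (e1 a) (e1 b) = fun t => U (γ a b t) := funext hc
      rw [hfun]
      refine ⟨hUc.comp_continuousOn h1, fun t ht t' ht' h => h2 ht ht' (hUi h), ?_, ?_, ?_⟩
      · rw [g1]
        exact congrArg U h3
      · rw [g1]
        exact congrArg U h4
      · intro t ht w hw
        change U (γ a b t) = g w at hw
        rcases hcov w with ⟨x, rfl⟩ | ⟨x, rfl⟩
        · rw [g1] at hw
          exact h5 t ht x (hUi hw)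
        · rw [g2] at hw
          obtain ⟨i, h6, _⟩ := star _ _ (hγ a b hab t ⟨ht.1.le, ht.2.le⟩) (hf' x).2 hw
          exact h5 t ht _ h6
    · obtain ⟨h1, h2, h3, h4, h5⟩ := hfe' a b hab
      have hfun : Γ (e2 a) (e2 b) = fun t => γ' a b t := funext hc
      rw [hfun]
      refine ⟨h1, h2, ?_, ?_, ?_⟩
      · rw [g2]
        exact h3
      · rw [g2]
        exact h4
      · intro t ht w hw
        change γ' a b t = g w at hw
        rcases hcov w with ⟨x, rfl⟩ | ⟨x, rfl⟩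
        · rw [g1] at hw
          obtain ⟨i, _, h6⟩ := star _ _ (hf x) (hγ' a b hab t ⟨ht.1.le, ht.2.le⟩).2 hw.symm
          exact h5 t ht _ h6
        · rw [g2] at hw
          exact h5 t ht x hw
  · intro u v u' v' huv huv' hne t ht t' ht' h
    rcases hΓ u v huv with ⟨a, b, hab, rfl, rfl, hc⟩ | ⟨a, b, hab, rfl, rfl, hc⟩ <;>
      rcases hΓ u' v' huv' with ⟨a', b', hab', rfl, rfl, hc'⟩ | ⟨a', b', hab', rfl, rfl, hc'⟩
    · rw [hc, hc'] at h
      refine hfd a b a' b' hab hab' ?_ t ht t' ht' (hUi h)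
      intro hs
      apply hne
      rw [← Sym2.map_mk, ← Sym2.map_mk, hs]
    · rw [hc, hc'] at h
      obtain ⟨i, h6, _⟩ := star _ _ (hγ a b hab t ⟨ht.1.le, ht.2.le⟩)
        (hγ' a' b' hab' t' ⟨ht'.1.le, ht'.2.le⟩).2 h
      exact (hfe a b hab).2.2.2.2 t ht _ h6
    · rw [hc, hc'] at h
      obtain ⟨i, h6, _⟩ := star _ _ (hγ a' b' hab' t' ⟨ht'.1.le, ht'.2.le⟩)
        (hγ' a b hab t ⟨ht.1.le, ht.2.le⟩).2 h.symm
      exact (hfe a' b' hab').2.2.2.2 t' ht' _ h6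
    · rw [hc, hc'] at h
      refine hfd' a b a' b' hab hab' ?_ t ht t' ht' h
      intro hs
      apply hne
      rw [← Sym2.map_mk, ← Sym2.map_mk, hs]
  · intro v
    rcases hcov v with ⟨x, rfl⟩ | ⟨x, rfl⟩
    · rw [g1]
      change 0 ≤ 1 + (f x).2 + d (ψ (f x).1)
      have h1 := hf x
      have h2 := hd0 (ψ (f x).1)
      linarith
    · rw [g2]
      exact (hf' x).1
  · intro u v huv t ht
    rcases hΓ u v huv with ⟨a, b, hab, rfl, rfl, hc⟩ | ⟨a, b, hab, rfl, rfl, hc⟩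
    · rw [hc]
      change 0 ≤ 1 + (γ a b t).2 + d (ψ (γ a b t).1)
      have h1 := hγ a b hab t ht
      have h2 := hd0 (ψ (γ a b t).1)
      linarith
    · rw [hc]
      exact (hγ' a b hab t ht).1
  · intro i
    exact hf0' i
  · intro i j hij
    exact hfx0' i j hij

end Pool.Agent.D0H24.LY
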