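import Mathlib

set_option autoImplicit false

/-!
Layered families of planar graphs (problem MP_0d034c_co, slot 4). Statements of two modules.
-/

namespace Pool.Agent.D0H24.LY

/-- **EXP.** Two sequences of vectors with Hankel inner products: then the inner products are sums of exponentials.
Proof: `W = span {h j}` (in `EuclideanSpace ℝ ι`); the shift `h j ↦ h (j + 1)` extends to a linear map `T : W → W`
(if `∑ a j • h j = 0` then `∑ a j • h (j + 1)` is orthogonal to all `h l` by the first hypothesis, and it is in `W`; so use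
`Φ = Finsupp.linearCombination ℝ h`, its kernel is mapped to itself by the shift of the indices, `LinearMap.quotKerEquivRange`),
`T` is symmetric, so there is an orthonormal basis `e i` of `W` with `T (e i) = lam i • e i` (`LinearMap.IsSymmetric.eigenvectorBasis`);
`⟨h j, k l⟩ = ⟨h (j + l), k 0⟩` by the second hypothesis, `h m = T ^ m (h 0) = ∑ lam i ^ m ⟨e i, h 0⟩ e i`, hence
`c i = ⟨e i, h 0⟩ ⟨e i, k 0⟩`; `finrank W ≤ card ι`, pad with `c i = 0`. -/
def S_EXP : Prop := ∀ (ι : Type) [Fintype ι] (h k : ℕ → ι → ℝ),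
  (∀ j l, ∑ i, h (j + 1) i * h l i = ∑ i, h j i * h (l + 1) i) →
  (∀ j l, ∑ i, h (j + 1) i * k l i = ∑ i, h j i * k (l + 1) i) →
  ∃ lam c : Fin (Fintype.card ι) → ℝ, ∀ j l, ∑ i, h j i * k l i = ∑ i, c i * lam i ^ (j + l)

/-- **ALT.** A sum of `N` exponentials with positive bases which alternates weakly at `N + 1` places vanishes.
Proof by induction on `N`: divide by `lam (last) ^ m` and take differences. -/
def S_ALT : Prop := ∀ (N : ℕ) (lam c : Fin N → ℝ), (∀ i, 0 < lam i) → ∀ m : ℕ → ℕ, StrictMono m →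
  (∀ t ≤ N, 0 ≤ (-1) ^ t * ∑ i, c i * lam i ^ (m t)) → ∀ k, ∑ i, c i * lam i ^ k = 0

end Pool.Agent.D0H24.LY
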