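import Pool.Agent.H207R2.BL.Chrom

set_option autoImplicit false

/-!
Layered planar graphs (problem MP_0d034c_co, slot 4). Definitions of layers, and statements of two modules.
-/

namespace Pool.Agent.D0H24.LY

open Pool.Agent.H207R2.BL

/-- The layer `L` (interior vertices `W`, upper boundary vertices `inl (inr i)`, lower boundary vertices `inr i`) is put under
the half `H`: the boundary vertices of `H` are identified with the upper boundary vertices of `L`, and the lower
boundary vertices of `L` are the new boundary vertices. -/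
def stack {V W : Type} {n : ℕ} (H : SimpleGraph (V ⊕ Fin n)) (L : SimpleGraph ((W ⊕ Fin n) ⊕ Fin n)) :
    SimpleGraph ((V ⊕ (W ⊕ Fin n)) ⊕ Fin n) :=
  SimpleGraph.map (fun x => Sum.inl (Sum.map id Sum.inr x)) H ⊔
    SimpleGraph.map (Sum.map Sum.inr id) L

/-- The layer is drawn in the strip `0 ≤ y ≤ 1`, the lower boundary vertices on the line `y = 0` and the upper ones on the
line `y = 1`, in increasing order. -/
def DrawnInStrip {W : Type} {n : ℕ} (L : SimpleGraph ((W ⊕ Fin n) ⊕ Fin n)) : Prop :=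
  ∃ (f : (W ⊕ Fin n) ⊕ Fin n → ℝ × ℝ) (γ : (W ⊕ Fin n) ⊕ Fin n → (W ⊕ Fin n) ⊕ Fin n → ℝ → ℝ × ℝ),
    IsDrawing L f γ ∧ (∀ v, 0 ≤ (f v).2 ∧ (f v).2 ≤ 1) ∧
    (∀ u v, L.Adj u v → ∀ t ∈ Set.Icc (0 : ℝ) 1, 0 ≤ (γ u v t).2 ∧ (γ u v t).2 ≤ 1) ∧
    (∀ i : Fin n, (f (Sum.inr i)).2 = 0) ∧ (∀ i : Fin n, (f (Sum.inl (Sum.inr i))).2 = 1) ∧
    (∀ i j : Fin n, i < j → (f (Sum.inr i)).1 < (f (Sum.inr j)).1) ∧
    (∀ i j : Fin n, i < j → (f (Sum.inl (Sum.inr i))).1 < (f (Sum.inl (Sum.inr j))).1)

/-- The exchange of the lower and the upper boundary vertices, with `τ` on the interior vertices. -/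
def exchange {W : Type} {n : ℕ} (τ : W ≃ W) : (W ⊕ Fin n) ⊕ Fin n → (W ⊕ Fin n) ⊕ Fin n
  | Sum.inl (Sum.inl w) => Sum.inl (Sum.inl (τ w))
  | Sum.inl (Sum.inr i) => Sum.inr i
  | Sum.inr i => Sum.inl (Sum.inr i)

/-- The layer is symmetric: some permutation of the interior vertices together with the exchange of the lower and upper
boundary vertices is a symmetry of the graph. -/
def SymmetricLayer {W : Type} {n : ℕ} (L : SimpleGraph ((W ⊕ Fin n) ⊕ Fin n)) : Prop :=
  ∃ τ : W ≃ W, ∀ u v, L.Adj u v ↔ L.Adj (exchange τ u) (exchange τ v)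

/-- **STK.** Drawing of the stack. As `Pool.Agent.D0H24.BG.glue_drawn` (file D0H24/BG/Draw.lean, same proof, use its
`interp`): the layer stays where it is; the half `H` is mapped by `z ↦ (ψ z.1, 1 + z.2 + d (ψ z.1))`, where `ψ` is strictly
increasing, continuous and takes the boundary vertices of `H` to the upper ones of `L`, and `d x = ∏ i |x - x_i|`, `x_i` the upper
boundary vertices; so the image meets the strip in the upper boundary vertices only. -/
def S_STK : Prop := ∀ {V W : Type} {n : ℕ} (H : SimpleGraph (V ⊕ Fin n)) (L : SimpleGraph ((W ⊕ Fin n) ⊕ Fin n)),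
  DrawnInHalfPlane H → DrawnInStrip L → DrawnInHalfPlane (stack H L)

/-- **ISO.** A symmetric layer can be moved to the other side: vertices of `V`, `U` are fixed, `w ↦ τ w` on `W`, and the
boundary vertices and the upper boundary vertices of the layer are exchanged. -/
def S_ISO : Prop := ∀ {V U W : Type} {n : ℕ} (H : SimpleGraph (V ⊕ Fin n)) (K : SimpleGraph (U ⊕ Fin n))
  (L : SimpleGraph ((W ⊕ Fin n) ⊕ Fin n)), SymmetricLayer L →
  Nonempty (glue (stack H L) K ≃g glue H (stack K L))

end Pool.Agent.D0H24.LY
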